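import Pool.Agent.Helper21.FX.StF

set_option autoImplicit false

namespace Pool.Agent.Helper21.FX

open Polynomial Pool.Agent.Helper72.FX

noncomputable section

private abbrev rt : Apar := AdjoinRoot.root (X ^ 2 - C cpar : ℂ[X][X][X])
private abbrev ofp : ℂ[X][X] →+* Apar := AdjoinRoot.of (X ^ 2 - C cpar : ℂ[X][X][X])

/-- evaluation at the origin `(a, b) = 0` -/
private def Lev : Apar →+* ℂ[X] :=
  AdjoinRoot.lift (evalRingHom (0 : ℂ[X])) 0 (by
    rw [eval₂_sub, eval₂_pow, eval₂_X, eval₂_C]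
    simp [cpar])

private theorem Lev_root : Lev rt = 0 := by
  unfold Lev
  exact AdjoinRoot.lift_root _

private theorem Lev_of (p : ℂ[X][X]) : Lev (ofp p) = p.eval 0 := by
  unfold Lev
  exact AdjoinRoot.lift_of _

private abbrev Jab : Ideal Apar := Ideal.span {rt, ofp X}

private theorem fin1 : Module.finrank ℂ[X] (Apar ⧸ Jab) = 1 := by
  have hinj : Function.Injective (Algebra.linearMap ℂ[X] (Apar ⧸ Jab)) := by
    have hJ : ∀ x ∈ Jab, Lev x = 0 := by
      intro x hx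
      obtain ⟨u, v, rfl⟩ := Ideal.mem_span_pair.1 hx
      rw [map_add, map_mul, map_mul, Lev_root, Lev_of]
      simp
    have h2 : ∀ p : ℂ[X], Ideal.Quotient.lift Jab Lev hJ (Algebra.linearMap ℂ[X] (Apar ⧸ Jab) p) = p := by
      intro p
      have : Algebra.linearMap ℂ[X] (Apar ⧸ Jab) p = Ideal.Quotient.mk Jab (ofp (C p)) := rfl
      rw [this, Ideal.Quotient.lift_mk, Lev_of, eval_C]
    exact Function.LeftInverse.injective h2
  have hsur : Function.Surjective (Algebra.linearMap ℂ[X] (Apar ⧸ Jab)) := by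
    intro y
    obtain ⟨y, rfl⟩ := Ideal.Quotient.mk_surjective y
    obtain ⟨f, rfl⟩ := AdjoinRoot.mk_surjective y
    refine ⟨(f.coeff 0).coeff 0, ?_⟩
    have : Algebra.linearMap ℂ[X] (Apar ⧸ Jab) ((f.coeff 0).coeff 0) =
      Ideal.Quotient.mk Jab (ofp (C ((f.coeff 0).coeff 0))) := rfl
    rw [this, Ideal.Quotient.eq]
    have h1 : AdjoinRoot.mk (X ^ 2 - C cpar : ℂ[X][X][X]) f =
        AdjoinRoot.mk _ f.divX * rt + ofp (f.coeff 0) := by
      conv_lhs => rw [← divX_mul_X_add f]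
      rw [map_add, map_mul]
      rfl
    have h2 : ofp (f.coeff 0) = ofp (f.coeff 0).divX * ofp X + ofp (C ((f.coeff 0).coeff 0)) := by
      conv_lhs => rw [← divX_mul_X_add (f.coeff 0)]
      rw [map_add, map_mul]
    have h3 : ofp (C ((f.coeff 0).coeff 0)) - AdjoinRoot.mk (X ^ 2 - C cpar : ℂ[X][X][X]) f =
        (-AdjoinRoot.mk _ f.divX) * rt + (-ofp (f.coeff 0).divX) * ofp X := by
      rw [h1, h2]; ring
    rw [h3]
    exact Ideal.mem_span_pair.2 ⟨_, _, rfl⟩
  rw [← LinearEquiv.finrank_eq (LinearEquiv.ofBijective _ ⟨hinj, hsur⟩), Module.finrank_self]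

/-- `P3 / (a, b) ≅ Apar / (α, b)` as rings over `P3` -/
private theorem ker2 (φ : P3 →+* Apar) (hs : Function.Surjective φ) (hk : RingHom.ker φ = Ideal.span {nu3})
    (h0 : φ (MvPolynomial.X 0) = rt) (h1 : φ (MvPolynomial.X 1) = ofp X) :
    RingHom.ker ((Ideal.Quotient.mk Jab).comp φ) =
      Ideal.span {(MvPolynomial.X 0 : P3), MvPolynomial.X 1} := by
  have hJ : Jab = (Ideal.span {(MvPolynomial.X 0 : P3), MvPolynomial.X 1}).map φ := by
    rw [Ideal.map_span, Set.image_pair, h0, h1]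
  rw [← RingHom.comap_ker, Ideal.mk_ker, hJ, Ideal.comap_map_of_surjective' φ hs, hk]
  apply sup_eq_left.2
  rw [Ideal.span_singleton_le_iff_mem]
  refine Ideal.mem_span_pair.2 ⟨-MvPolynomial.X 0, 2 + MvPolynomial.X 2 * MvPolynomial.X 1, ?_⟩
  unfold nu3 nu
  ring

/-- transport to the quotient of the ring -/
private theorem tr1 {A S Λ : Type} [CommRing A] [CommRing S] [AddCommGroup Λ] (I J : Ideal A)
    (ψ : AF A (kil I) Λ) (g : A →+* S) (hg : Function.Surjective g) (hJ : RingHom.ker g = J)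
    (hI : I ≤ J) (v : Λ) (hv : @AF.f _ _ _ _ _ ψ S _ (Module.compHom S g) = v) : ψ.f (A ⧸ J) = v := by
  let _ : Module A S := Module.compHom S g
  have hsm : ∀ (a : A) (s : S), a • s = g a * s := fun _ _ => rfl
  let f : A →ₗ[A] S := { toFun := g, map_add' := map_add g, map_smul' := fun a b => map_mul g a b }
  have hfs : Function.Surjective f := hg
  have hf : Module.Finite A S := Module.Finite.of_surjective f hfs
  have hkf : (J : Submodule A A) = LinearMap.ker f := by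
    rw [← hJ]; ext x; rfl
  have hkil : kil I S := by
    intro x hx y
    have : x ∈ RingHom.ker g := hJ ▸ hI hx
    rw [hsm, RingHom.mem_ker.1 this, zero_mul]
  rw [← hv]
  exact AF.equiv ψ (gd_kil I) ((Submodule.quotEquivOfEq _ _ hkf).trans (f.quotKerEquivOfSurjective hfs))
    hf hkil

theorem hPAR : StPAR := by
  intro hPR0 hQUO hRNK hQEV hNPR hMD3
  obtain ⟨hdom, htf, hev⟩ := hQEV hRNK ℂ[X] cpar hNPR
  obtain ⟨φ, hs, hk, h0, h1, h2, hC⟩ := hMD3
  have hnoe : IsNoetherianRing Apar :=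
    isNoetherianRing_of_surjective _ _ (AdjoinRoot.mk (X ^ 2 - C cpar : ℂ[X][X][X]))
      AdjoinRoot.mk_surjective
  obtain ⟨χ, hχ1, hχ2⟩ := hPR0 ℂ[X] Apar hev
  have hQ := hQUO P3 Apar φ hs (ZMod 2) χ
  rw [hk] at hQ
  obtain ⟨ψ, hψ⟩ := hQ
  have hr0 : rt ≠ 0 := by
    intro h
    have h' : φ (MvPolynomial.X 0) = 0 := h0.trans h
    have h3 : (MvPolynomial.X 0 : P3) ∈ Ideal.span {nu3} := hk ▸ (RingHom.mem_ker.2 h')
    obtain ⟨g, hg⟩ := Ideal.mem_span_singleton'.1 h3
    have := congrArg (MvPolynomial.aeval ![(1 : ℂ), 1 / 2, 0]) hg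
    simp [nu3, nu] at this
  refine ⟨ψ, ?_, ?_⟩
  · refine tr1 _ _ ψ φ hs hk le_rfl 0 ?_
    let _ : Module P3 Apar := Module.compHom Apar φ
    rw [← hχ1]
    exact hψ Apar (fun _ _ => rfl)
  · have hker := ker2 φ hs hk h0 h1
    have hsur : Function.Surjective ((Ideal.Quotient.mk Jab).comp φ) :=
      Ideal.Quotient.mk_surjective.comp hs
    refine tr1 _ _ ψ _ hsur hker ?_ 1 ?_
    · rw [← hk, ← hker]
      intro x hx
      rw [RingHom.mem_ker] at hx ⊢
      rw [RingHom.comp_apply, hx, map_zero]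
    · let _ : Module P3 (Apar ⧸ Jab) := Module.compHom (Apar ⧸ Jab) ((Ideal.Quotient.mk Jab).comp φ)
      have h5 : ψ.f (Apar ⧸ Jab) = χ.f (Apar ⧸ Jab) := by
        refine hψ (Apar ⧸ Jab) ?_
        intro a m
        obtain ⟨m, rfl⟩ := Ideal.Quotient.mk_surjective m
        rfl
      rw [h5]
      rw [hχ2 (Apar ⧸ Jab) inferInstance ⟨rt, hr0, ?_⟩, fin1, Nat.cast_one]
      intro y
      obtain ⟨m, rfl⟩ := Ideal.Quotient.mk_surjective y
      change Ideal.Quotient.mk Jab (rt * m) = 0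
      rw [Ideal.Quotient.eq_zero_iff_mem]
      exact Ideal.mul_mem_right _ _ (Ideal.subset_span (by simp))

end

end Pool.Agent.Helper21.FX
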