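import Pool.Agent.Helper49.FX.M_FTH
import Pool.Agent.Helper49.FX.M_F1
import Pool.Agent.Helper49.FX.M_D3
import Pool.Agent.Helper71.FX.M_F2
import Pool.Agent.Helper87.FX.M_F3
import Pool.Agent.Helper42.FX.M_F4
import Pool.Agent.Helper17.FX.M_QUO
import Pool.Agent.Helper61.FX.M_RNK
import Pool.Agent.Helper5.FX.M_QEV
import Pool.Agent.Helper10.FX.M_NPR
import Pool.Agent.Helper88.FX.M_MD3
import Pool.Agent.Helper21.FX.M_PAR
import Pool.Agent.Helper41.FX.StK2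

/-!
# Project FX, chapter K: assembly of PAR and F1-F4, in the form of `Helper41/FX/StK2.lean`
-/

set_option autoImplicit false

namespace Pool.Agent.Helper21.FX

open Polynomial Pool.Agent.Helper72.FX

theorem yF1 (hPRI : StPRI) : Pool.Agent.Helper41.FX.StF1 := by
  have h := Pool.Agent.Helper49.FX.hF1 hPRI
  exact ⟨h.1, h.2.2⟩

theorem yF2 (hPRI : StPRI) : Pool.Agent.Helper41.FX.StF2 :=
  Pool.Agent.Helper71.FX.hF2 Pool.Agent.Helper49.FX.hFTH Pool.Agent.Helper49.FX.hF1 hPRI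

theorem yF3 : Pool.Agent.Helper41.FX.StF3 :=
  Pool.Agent.Helper87.FX.hF3 Pool.Agent.Helper49.FX.hD3

theorem yF4 : Pool.Agent.Helper41.FX.StF4 :=
  Pool.Agent.Helper42.FX.hF4 Pool.Agent.Helper49.FX.hD3

theorem yPAR (hPR0 : StPR0) : Pool.Agent.Helper41.FX.StPAR :=
  hPAR hPR0 Pool.Agent.Helper17.FX.hQUO Pool.Agent.Helper61.FX.hRNK Pool.Agent.Helper5.FX.hQEV
    Pool.Agent.Helper10.FX.hNPR Pool.Agent.Helper88.FX.hMD3

end Pool.Agent.Helper21.FX
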