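import Pool.Agent.Helper72.FX.StK

/-!
# Project FX, chapter K: concrete rings of the chain (definitions only)

`B7 = ℂ[a, b, t, σ, μ, ω_x, ω_z]` (variables `0, ..., 6`), `B8 = B7[X]` (`X = ν'`), `B9 = B8[X]` (`X = ω_y`),
`P0 = ℂ[a, b, t, ρ, ν', σ, μ, ω_x, ω_y, ω_z]` (variables `0, ..., 9`).
-/

set_option autoImplicit false

namespace Pool.Agent.Helper21.FX

open Polynomial Pool.Agent.Helper72.FX

noncomputable section

abbrev P3 : Type := MvPolynomial (Fin 3) ℂ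
abbrev B7 : Type := MvPolynomial (Fin 7) ℂ
abbrev B8 : Type := B7[X]
abbrev B9 : Type := B8[X]
abbrev P0 : Type := MvPolynomial (Fin 10) ℂ

/-- the polynomial `ν` in `ℂ[a, b, t]` -/
def nu3 : P3 := nu (MvPolynomial.X 0) (MvPolynomial.X 1) (MvPolynomial.X 2)

/-! variables of `B7` -/
def a7 : B7 := MvPolynomial.X 0
def b7 : B7 := MvPolynomial.X 1
def t7 : B7 := MvPolynomial.X 2
/-- `σ` -/
def s7 : B7 := MvPolynomial.X 3
/-- `μ` -/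
def m7 : B7 := MvPolynomial.X 4
/-- `ω_x` -/
def x7 : B7 := MvPolynomial.X 5
/-- `ω_z` -/
def z7 : B7 := MvPolynomial.X 6

/-- `ν` in `B7` -/
def nu7 : B7 := nu a7 b7 t7

/-- `D = 1 + t σ (μ kx + σ ω_x)` in `B7` -/
def D7 : B7 := 1 + t7 * s7 * (m7 * kx a7 b7 t7 + s7 * x7)

/-- `s = ν - σ μ` of the first pencil `σ X - (ν - σ μ)` -/
def q7 : B7 := nu7 - s7 * m7

/-- `h = μ ν' κ + ω_x - σ (t μ ky ω_x - 2 μ kz ω_z - σ ω_z²)` in `B8`, `ν' = X` -/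
def h8 : B8 := C (m7 * kappa a7 b7 t7) * X +
  C (x7 - s7 * (t7 * m7 * ky a7 b7 t7 * x7 - 2 * m7 * kz a7 b7 t7 * z7 - s7 * z7 ^ 2))

/-- the ideal of the first pencil -/
def I8 : Ideal B8 := pid ⊥ s7 q7

/-! variables of `P0` -/
def a0 : P0 := MvPolynomial.X 0
def b0 : P0 := MvPolynomial.X 1
def t0 : P0 := MvPolynomial.X 2
/-- `ρ` -/
def r0 : P0 := MvPolynomial.X 3
/-- `ν'` -/
def n0 : P0 := MvPolynomial.X 4
/-- `σ` -/
def s0 : P0 := MvPolynomial.X 5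
/-- `μ` -/
def m0 : P0 := MvPolynomial.X 6
def x0 : P0 := MvPolynomial.X 7
def y0 : P0 := MvPolynomial.X 8
def z0 : P0 := MvPolynomial.X 9

/-- `E₁`, `E₂` as polynomials -/
def E10 : P0 := E1 a0 b0 t0 r0 n0 s0 m0
def E20 : P0 := E2 a0 b0 t0 r0 n0 s0 m0 x0 y0 z0
/-- `D' = 1 + t σ (μ kx + ρ ω_x)` in `P0` -/
def D0 : P0 := 1 + t0 * s0 * (m0 * kx a0 b0 t0 + r0 * x0)

end

end Pool.Agent.Helper21.FX
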