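import Pool.Agent.Helper41.FX.StK2
import Pool.Agent.Helper72.FX.C1Defs

set_option autoImplicit false

namespace Pool.Agent.Helper21.FX

open Polynomial Pool.Agent.Helper72.FX

noncomputable section

/-- the constants `B7 → B9` -/
private def cc : B7 →ₐ[ℂ] B9 := (CAlgHom : B8 →ₐ[ℂ] B9).comp (CAlgHom : B7 →ₐ[ℂ] B8)

private theorem cc_eq (p : B7) : cc p = C (C p) := rfl

/-- the map `P0 → B9` with `ρ ↦ σ` -/
private def th : P0 →ₐ[ℂ] B9 := MvPolynomial.aeval
  ![cc a7, cc b7, cc t7, cc s7, C X, cc s7, cc m7, cc x7, X, cc z7]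

private theorem th_a : th a0 = cc a7 := by simp [th, a0]
private theorem th_b : th b0 = cc b7 := by simp [th, b0]
private theorem th_t : th t0 = cc t7 := by simp [th, t0]
private theorem th_r : th r0 = cc s7 := by simp [th, r0]
private theorem th_n : th n0 = C X := by simp [th, n0]
private theorem th_s : th s0 = cc s7 := by simp [th, s0]
private theorem th_m : th m0 = cc m7 := by simp [th, m0]
private theorem th_x : th x0 = cc x7 := by simp [th, x0]
private theorem th_y : th y0 = X := by simp [th, y0]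
private theorem th_z : th z0 = cc z7 := by simp [th, z0]

private theorem th_i90 (p : B9) : th (i90 p) = p := by
  have : (th : P0 →+* B9).comp i90 = RingHom.id B9 := by
    apply Polynomial.ringHom_ext'
    · apply Polynomial.ringHom_ext'
      · apply MvPolynomial.ringHom_ext
        · intro z
          change th (i90 (C (C (MvPolynomial.C z)))) = C (C (MvPolynomial.C z))
          rw [i90_C]
          have h1 : i70 (MvPolynomial.C z) = MvPolynomial.C z := by simp [i70, MvPolynomial.algebraMap_eq]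
          rw [h1]
          have h2 : th (MvPolynomial.C z) = algebraMap ℂ B9 z := th.commutes z
          rw [h2]
          rfl
        · intro i
          change th (i90 (C (C (MvPolynomial.X i)))) = C (C (MvPolynomial.X i))
          rw [i90_C]
          fin_cases i
          · exact (congrArg th i70_a).trans th_a
          · exact (congrArg th i70_b).trans th_b
          · exact (congrArg th i70_t).trans th_t
          · exact (congrArg th i70_s).trans th_s
          · exact (congrArg th i70_m).trans th_m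
          · exact (congrArg th i70_x).trans th_x
          · exact (congrArg th i70_z).trans th_z
      · change th (i90 (C X)) = C X
        rw [i90_n, th_n]
    · change th (i90 X) = X
      rw [i90_y, th_y]
  exact congrArg (fun f => f p) this

private theorem th_E1 : th E10 = -(C (pel s7 q7)) := by
  rw [E10]
  refine (map_E1 (A := P0) (A' := B9) th _ _ _ _ _ _ _).trans ?_
  rw [th_a, th_b, th_t, th_r, th_n, th_s, th_m]
  have : cc (nu a7 b7 t7) = nu (cc a7) (cc b7) (cc t7) :=
    map_nu (A := B7) (A' := B9) cc _ _ _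
  rw [E1, ← this]
  simp only [cc_eq, pel, q7, nu7, map_sub, map_mul]
  ring

private theorem th_E2 : th E20 = pel (C D7) h8 := by
  rw [E20]
  refine (map_E2 (A := P0) (A' := B9) th _ _ _ _ _ _ _ _ _ _).trans ?_
  rw [th_a, th_b, th_t, th_r, th_n, th_s, th_m, th_x, th_y, th_z]
  have h1 : cc (kx a7 b7 t7) = kx (cc a7) (cc b7) (cc t7) :=
    map_kx (A := B7) (A' := B9) cc _ _ _
  have h2 : cc (ky a7 b7 t7) = ky (cc a7) (cc b7) (cc t7) :=
    map_ky (A := B7) (A' := B9) cc _ _ _
  have h3 : cc (kz a7 b7 t7) = kz (cc a7) (cc b7) (cc t7) :=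
    map_kz (A := B7) (A' := B9) cc _ _ _
  have h4 : cc (kappa a7 b7 t7) = kappa (cc a7) (cc b7) (cc t7) :=
    map_kappa (A := B7) (A' := B9) cc _ _ _
  rw [E2, ← h1, ← h2, ← h3, ← h4]
  have h5 : (C h8 : B9) = cc (m7 * kappa a7 b7 t7) * C X + cc (x7 - s7 * (t7 * m7 * ky a7 b7 t7 * x7 - 2 * m7 * kz a7 b7 t7 * z7 - s7 * z7 ^ 2)) := by
    rw [h8, RingHom.map_add, RingHom.map_mul]; rfl
  have h6 : (C (C D7) : B9) = cc D7 := rfl
  have h7 : (pel (C D7) h8 : B9) = cc D7 * X - C h8 := rfl
  rw [h7, h5, D7]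
  simp only [map_sub, map_add, map_mul, map_pow, map_ofNat, map_one]
  ring

private theorem phi7_eq : Pool.Agent.Helper41.FX.phi7 = i70.toRingHom := by
  unfold Pool.Agent.Helper41.FX.phi7 i70
  apply MvPolynomial.ringHom_ext
  · intro z
    change MvPolynomial.aeval _ (MvPolynomial.C z) = MvPolynomial.aeval _ (MvPolynomial.C z)
    rw [MvPolynomial.aeval_C, MvPolynomial.aeval_C]
  · intro i
    change MvPolynomial.aeval _ (MvPolynomial.X i) = MvPolynomial.aeval _ (MvPolynomial.X i)
    rw [MvPolynomial.aeval_X, MvPolynomial.aeval_X]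
    fin_cases i <;> rfl

private theorem phi9_eq : Pool.Agent.Helper41.FX.phi9 = i90 := by
  unfold Pool.Agent.Helper41.FX.phi9 Pool.Agent.Helper41.FX.phi8 i90
  rw [phi7_eq]
  rfl

/-- the ideal of the two pencils -/
private theorem pid9 : pid (pid (⊥ : Ideal B7) s7 q7) (C D7) h8 =
    Ideal.span {(C (pel s7 q7) : B9)} ⊔ Ideal.span {(pel (C D7) h8 : B9)} := by
  unfold pid
  rw [Ideal.map_bot, bot_sup_eq, Ideal.map_span, Set.image_singleton]

private theorem hgen : ∀ x ∈ pid (pid (⊥ : Ideal B7) s7 q7) (C D7) h8,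
    i90 x ∈ Ideal.span {E10, E20, s0 - r0} := by
  intro x hx
  rw [pid9] at hx
  obtain ⟨y, hy, z, hz, rfl⟩ := Submodule.mem_sup.1 hx
  obtain ⟨y, rfl⟩ := Ideal.mem_span_singleton'.1 hy
  obtain ⟨z, rfl⟩ := Ideal.mem_span_singleton'.1 hz
  have h1 : i90 (y * C (pel s7 q7) + z * pel (C D7) h8) =
      i90 y * ((s0 - r0) * n0 - E10) + i90 z * (E20 + (s0 - r0) * (t0 * s0 * x0 * y0 - s0 * z0 ^ 2)) := by
    rw [← i90_p1, ← i90_p2, ← i90.map_mul, ← i90.map_mul]
    exact i90.map_add _ _
  rw [h1]
  have hE1 : E10 ∈ Ideal.span {E10, E20, s0 - r0} := Ideal.subset_span (by simp)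
  have hE2 : E20 ∈ Ideal.span {E10, E20, s0 - r0} := Ideal.subset_span (by simp)
  have hss : s0 - r0 ∈ Ideal.span {E10, E20, s0 - r0} := Ideal.subset_span (by simp)
  exact Ideal.add_mem _ (Ideal.mul_mem_left _ _ (Ideal.sub_mem _ (Ideal.mul_mem_right _ _ hss) hE1))
    (Ideal.mul_mem_left _ _ (Ideal.add_mem _ hE2 (Ideal.mul_mem_right _ _ hss)))

private theorem hback : ∀ x ∈ Ideal.span {E10, E20, s0 - r0},
    th x ∈ pid (pid (⊥ : Ideal B7) s7 q7) (C D7) h8 := by
  intro x hx
  rw [pid9]
  have : (Ideal.span {E10, E20, s0 - r0}).map (th : P0 →+* B9) ≤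
      Ideal.span {(C (pel s7 q7) : B9)} ⊔ Ideal.span {(pel (C D7) h8 : B9)} := by
    rw [Ideal.map_span, Ideal.span_le]
    rintro _ ⟨y, hy, rfl⟩
    have h1 : (C (pel s7 q7) : B9) ∈ Ideal.span {(C (pel s7 q7) : B9)} ⊔ Ideal.span {(pel (C D7) h8 : B9)} :=
      Ideal.mem_sup_left (Ideal.mem_span_singleton_self _)
    have h2 : (pel (C D7) h8 : B9) ∈ Ideal.span {(C (pel s7 q7) : B9)} ⊔ Ideal.span {(pel (C D7) h8 : B9)} :=
      Ideal.mem_sup_right (Ideal.mem_span_singleton_self _)
    rcases hy with rfl | rfl | rfl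
    · change th E10 ∈ _
      have h3 : th E10 = (-1 : B9) * C (pel s7 q7) := by
        rw [th_E1]; ring
      rw [h3]
      exact Ideal.mul_mem_left _ _ h1
    · change th E20 ∈ _
      rw [th_E2]; exact h2
    · change th (s0 - r0) ∈ _
      rw [map_sub, th_s, th_r, sub_self]
      exact Ideal.zero_mem _
  exact this (Ideal.mem_map_of_mem _ hx)

private theorem hsec (a : P0) : a - i90 (th a) ∈ Ideal.span {s0 - r0} := by
  refine MvPolynomial.induction_on (motive := fun a => a - i90 (th a) ∈ Ideal.span {s0 - r0}) a ?_ ?_ ?_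
  · intro z
    have h1 : th (MvPolynomial.C z) = C (C (MvPolynomial.C z)) := th.commutes z
    have h2 : i70 (MvPolynomial.C z) = MvPolynomial.C z := by
      simp [i70, MvPolynomial.algebraMap_eq]
    rw [h1, i90_C, h2, sub_self]
    exact Ideal.zero_mem _
  · intro p q hp hq
    have : p + q - i90 (th (p + q)) = (p - i90 (th p)) + (q - i90 (th q)) := by
      rw [map_add]
      have : i90 (th p + th q) = i90 (th p) + i90 (th q) := i90.map_add _ _
      rw [this]; ring
    rw [this]
    exact Ideal.add_mem _ hp hq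
  · intro p i hp
    have hx : (MvPolynomial.X i : P0) - i90 (th (MvPolynomial.X i)) ∈ Ideal.span {s0 - r0} := by
      have e0 : ∀ (v : P0) (w : B9), th v = w → i90 w = v → v - i90 (th v) ∈ Ideal.span {s0 - r0} := by
        intro v w hv hw
        rw [hv, hw, sub_self]
        exact Ideal.zero_mem _
      fin_cases i
      · exact e0 _ _ th_a ((i90_C _).trans i70_a)
      · exact e0 _ _ th_b ((i90_C _).trans i70_b)
      · exact e0 _ _ th_t ((i90_C _).trans i70_t)
      · change r0 - i90 (th r0) ∈ _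
        rw [th_r, cc_eq, i90_C, i70_s]
        exact Ideal.mem_span_singleton'.2 ⟨-1, by ring⟩
      · exact e0 _ _ th_n i90_n
      · exact e0 _ _ th_s ((i90_C _).trans i70_s)
      · exact e0 _ _ th_m ((i90_C _).trans i70_m)
      · exact e0 _ _ th_x ((i90_C _).trans i70_x)
      · exact e0 _ _ th_y i90_y
      · exact e0 _ _ th_z ((i90_C _).trans i70_z)
    have : p * MvPolynomial.X i - i90 (th (p * MvPolynomial.X i)) =
        (p - i90 (th p)) * MvPolynomial.X i +
          i90 (th p) * (MvPolynomial.X i - i90 (th (MvPolynomial.X i))) := by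
      rw [map_mul]
      have : i90 (th p * th (MvPolynomial.X i)) = i90 (th p) * i90 (th (MvPolynomial.X i)) :=
        i90.map_mul _ _
      rw [this]; ring
    rw [this]
    exact Ideal.add_mem _ (Ideal.mul_mem_right _ _ hp) (Ideal.mul_mem_left _ _ hx)

private abbrev jp : Ideal P0 := Ideal.span {r0, s0, a0, b0, E20}
private abbrev jq : Ideal B9 :=
  Ideal.map C (Ideal.span {(C s7 : B8), C a7, C b7}) ⊔ Ideal.span {(pel (C D7) h8 : B9)}

private theorem hjq : ∀ x ∈ jq, i90 x ∈ jp := by
  intro x hx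
  have hr : r0 ∈ jp := Ideal.subset_span (by simp)
  have hs : s0 ∈ jp := Ideal.subset_span (by simp)
  have ha : a0 ∈ jp := Ideal.subset_span (by simp)
  have hb : b0 ∈ jp := Ideal.subset_span (by simp)
  have he : E20 ∈ jp := Ideal.subset_span (by simp)
  have : jq ≤ jp.comap i90 := by
    rw [sup_le_iff]
    constructor
    · rw [Ideal.map_span, Ideal.span_le]
      rintro _ ⟨y, hy, rfl⟩
      rcases hy with rfl | rfl | rfl
      · change i90 (C (C s7)) ∈ jp
        rw [i90_C, i70_s]; exact hs
      · change i90 (C (C a7)) ∈ jp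
        rw [i90_C, i70_a]; exact ha
      · change i90 (C (C b7)) ∈ jp
        rw [i90_C, i70_b]; exact hb
    · rw [Ideal.span_le]
      rintro _ rfl
      change i90 (pel (C D7) h8) ∈ jp
      rw [i90_p2]
      exact Ideal.add_mem _ he (Ideal.mul_mem_right _ _ (Ideal.sub_mem _ hs hr))
  exact this hx

private theorem hjp : ∀ x ∈ jp, th x ∈ jq := by
  intro x hx
  have hC : ∀ p : B7, (C p : B8) ∈ (Ideal.span {(C s7 : B8), C a7, C b7} : Ideal B8) → cc p ∈ jq := by
    intro p hp
    rw [cc_eq]
    exact Ideal.mem_sup_left (Ideal.mem_map_of_mem C hp)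
  have : jp.map (th : P0 →+* B9) ≤ jq := by
    rw [Ideal.map_span, Ideal.span_le]
    rintro _ ⟨y, hy, rfl⟩
    rcases hy with rfl | rfl | rfl | rfl | rfl
    · change th r0 ∈ jq
      rw [th_r]; exact hC _ (Ideal.subset_span (by simp))
    · change th s0 ∈ jq
      rw [th_s]; exact hC _ (Ideal.subset_span (by simp))
    · change th a0 ∈ jq
      rw [th_a]; exact hC _ (Ideal.subset_span (by simp))
    · change th b0 ∈ jq
      rw [th_b]; exact hC _ (Ideal.subset_span (by simp))
    · change th E20 ∈ jq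
      rw [th_E2]; exact Ideal.mem_sup_right (Ideal.mem_span_singleton_self _)
  exact this (Ideal.mem_map_of_mem _ hx)

theorem hPHI : Pool.Agent.Helper41.FX.StPHI := by
  unfold Pool.Agent.Helper41.FX.StPHI
  rw [phi9_eq]
  refine ⟨?_, ?_, ?_, ?_, ?_⟩
  · rw [Ideal.map_le_iff_le_comap]
    intro x hx
    exact hgen x hx
  · intro a
    refine ⟨th a, ?_⟩
    have h : Ideal.span {s0 - r0} ≤ Ideal.span {E10, E20, s0 - r0} :=
      Ideal.span_mono (by simp)
    exact h (hsec a)
  · change i90 (C (C D7)) - D0 ∈ Ideal.span {s0 - r0}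
    rw [i90_D, D0]
    exact Ideal.mem_span_singleton'.2 ⟨t0 * s0 * x0, by ring⟩
  · apply le_antisymm
    · intro x hx
      have := hback _ hx
      rw [th_i90] at this
      exact this
    · intro x hx
      exact hgen x hx
  · apply le_antisymm
    · intro x hx
      have := hjp _ hx
      rw [th_i90] at this
      exact this
    · intro x hx
      exact hjq x hx

end

end Pool.Agent.Helper21.FX
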