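import Pool.Agent.Helper21.FX.DefF

/-!
# Project FX, chapter K: parity function (PAR) and the nonzerodivisor facts F1-F4

Read `DefF.lean` (the rings `P3`, `B7`, `B8`, `B9`, `P0` and their elements) and `Helper72/FX/KDefs.lean` (`AF`, `kil`).
-/

set_option autoImplicit false

namespace Pool.Agent.Helper21.FX

open Polynomial Pool.Agent.Helper72.FX

noncomputable section

/-! ### F: nonzerodivisors -/

/-- swap lemma (proved): `x` regular mod `I`, `f` regular mod `I + (x)` imply `x` regular mod `I + (f)` -/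
theorem swp {R : Type} [CommRing R] (I : Ideal R) (x f : R) (hx : ∀ y, x * y ∈ I → y ∈ I)
    (hf : ∀ y, f * y ∈ I ⊔ Ideal.span {x} → y ∈ I ⊔ Ideal.span {x}) :
    ∀ y, x * y ∈ I ⊔ Ideal.span {f} → y ∈ I ⊔ Ideal.span {f} := by
  intro y hy
  obtain ⟨i, hi, w, hw, h1⟩ := Submodule.mem_sup.1 hy
  obtain ⟨z, rfl⟩ := Ideal.mem_span_singleton'.1 hw
  have h2 : f * z ∈ I ⊔ Ideal.span {x} := by
    have : f * z = -i + y * x := by linear_combination h1
    rw [this]
    exact Submodule.add_mem_sup (I.neg_mem hi) (Ideal.mem_span_singleton'.2 ⟨y, rfl⟩)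
  obtain ⟨i', hi', w', hw', h3⟩ := Submodule.mem_sup.1 (hf z h2)
  obtain ⟨z', rfl⟩ := Ideal.mem_span_singleton'.1 hw'
  have h4 : x * (y - f * z') ∈ I := by
    have : x * (y - f * z') = i + f * i' := by linear_combination -h1 - f * h3
    rw [this]
    exact I.add_mem hi (I.mul_mem_left f hi')
  have h5 := hx _ h4
  have : y = (y - f * z') + z' * f := by ring
  rw [this]
  exact Submodule.add_mem_sup h5 (Ideal.mem_span_singleton'.2 ⟨z', rfl⟩)

/-- `X - w` is regular modulo an extended ideal (proved) -/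
theorem monreg {S : Type} [CommRing S] (J : Ideal S) (w : S) (f : S[X])
    (h : (X - C w) * f ∈ J.map (C : S →+* S[X])) : f ∈ J.map (C : S →+* S[X]) := by
  have hk : ∀ g : S[X], g ∈ J.map (C : S →+* S[X]) ↔ g.map (Ideal.Quotient.mk J) = 0 := by
    intro g
    rw [Ideal.mem_map_C_iff]
    constructor
    · intro hg
      ext n
      rw [coeff_map, coeff_zero]
      exact Ideal.Quotient.eq_zero_iff_mem.2 (hg n)
    · intro hg n
      have := congrArg (fun p => coeff p n) hg
      simp only [coeff_map, coeff_zero] at this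
      exact Ideal.Quotient.eq_zero_iff_mem.1 this
  rw [hk] at h ⊢
  rw [Polynomial.map_mul, Polynomial.map_sub, map_X, map_C] at h
  exact ((monic_X_sub_C _).mul_right_eq_zero_iff).1 h

/-- **FTH** (80 lines).  PROOF.  `θ := (MvPolynomial.aeval v).toRingHom`, `v = ![C (C a7), C (C b7), C (C t7), C (C s7), C X, C (C s7),
C (C m7), C (C x7), X, C (C z7)]` (the variables of `P0` are `a b t ρ ν' σ μ ω_x ω_y ω_z`).  In the other direction
`φ : B9 →+* P0`: `Polynomial.eval₂RingHom` twice over `MvPolynomial.aeval ![a0, b0, t0, s0, m0, x0, z0]`, `C X ↦ n0`, `X ↦ y0`.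
`θ ∘ φ = id` (surjectivity; check on the generators with `Polynomial.ringHom_ext` / `MvPolynomial.ringHom_ext`).
`f - φ (θ f) ∈ (s0 - r0)` for all `f` (`MvPolynomial.induction_on f`: constants `0`; sums; `f * X i`:
`f X_i - φθ f φθ X_i = (f - φθ f) X_i + φθ f (X_i - φθ X_i)`, and `X_i - φθ X_i` is `0` or `r0 - s0` for `i = 3`).  So
`ker θ = (s0 - r0)`.  Values: `kx a b t = MvPolynomial.aeval ![a, b, t] (kp 0)` etc. commute with algebra homomorphisms
(`MvPolynomial.aeval_algHom_apply` or `MvPolynomial.comp_aeval`; the maps `C` are algebra homomorphisms over `ℂ`), in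
particular `kx (C (C a7)) (C (C b7)) (C (C t7)) = C (C (kx a7 b7 t7))`; `kappa` the same.  Then `ring` (kx, ky, kz, kappa atoms). -/
def StFTH : Prop := ∃ θ : P0 →+* B9, Function.Surjective θ ∧ RingHom.ker θ = Ideal.span {s0 - r0} ∧
  θ E10 = C (-(pel s7 q7)) ∧ θ E20 = C (C D7) * X - C h8 ∧ θ s0 = C (C s7) ∧ θ r0 = C (C s7) ∧
  θ D0 = C (C D7)

/-- **F1** (50 lines).  PROOF.  `I8 = (⊥).map C ⊔ span {pel s7 q7} = span {pel s7 q7}`.  `PRI` for `B = B7` (a domain), `E = s7`
(`MvPolynomial.X 3`, prime: `MvPolynomial.prime_X` or irreducible in a UFD), `s = q7`: `s7 ∤ q7`, because the evaluation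
`b ↦ 1`, all other variables `↦ 0` kills `s7` and maps `q7 = 2 b + t b² - a² - σ μ` to `2`.  `C b ∈ I8` implies `b = 0`; `s7 ≠ 0`
and `D7 ≠ 0` (evaluation at `0` gives `1`). -/
def StF1 : Prop := StPRI → (I8.IsPrime ∧ (C s7 : B8) ∉ I8 ∧ (C D7 : B8) ∉ I8)

/-- **D3** (70 lines).  PROOF.  Let `J = (ν, ρ, σ)`.  `E20 ≡ y0 - w (mod J)`, `w = x0 + m0 n0 κ` (the other terms of `E2` have the
factor `σ`).  Let `e : P0 ≃ₐ[ℂ] (MvPolynomial (Fin 9) ℂ)[X]`, `e = (MvPolynomial.renameEquiv ℂ (_root_.finSuccEquiv' 8)).trans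
(MvPolynomial.optionEquivLeft ℂ (Fin 9))`; `e y0 = X`, `e (X i) = C (X j)` for the other variables, so `e w = C w'` and
`e (ν), e r0, e s0` are of the form `C _`: `J.map e = J'.map C`, `J' = span {ν', r', s'}`.  `E20 * y ∈ J` gives
`(y0 - w) * y ∈ J`, so `(X - C w') * e y ∈ J'.map C`, `monreg` gives `e y ∈ J'.map C`, `y ∈ J`.
(`kappa a0 b0 t0` is `MvPolynomial.aeval ![a0, b0, t0]` of a polynomial, so its image under `e` is `C` of the same with the
variables `a', b', t'`.) -/
def StD3 : Prop := ∀ y : P0, E20 * y ∈ Ideal.span {nu a0 b0 t0, r0, s0} →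
  y ∈ Ideal.span {nu a0 b0 t0, r0, s0}

/-- **F2** (90 lines).  PROOF.  `swp` twice.  (1) `I = ⊥`, `x = s0 - r0` (domain), `f = E10`: `(s0 - r0)` is a prime ideal (kernel
of `θ` of `FTH`, `B9` is a domain) and `θ E10 ≠ 0` (coefficients: `pel s7 q7 ≠ 0` as `s7 ≠ 0`).  So `s0 - r0` is regular mod
`(E10)`.  (2) `I = (E10)`, `x = s0 - r0`, `f = E20`: let `E20 * y ∈ (E10) ⊔ (s0 - r0)`.  Apply `θ`:
`θ E20 * θ y ∈ span {C (pel s7 q7)} = I8.map C`, a prime ideal (`Ideal.isPrime_map_C_of_isPrime`, `F1`), `θ E20` is not in it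
because its coefficient of `X` is `C D7 ∉ I8` (`Ideal.mem_map_C_iff`).  So `θ y = C (pel) * z`, `z = θ z'`, so
`y + z' * E10 ∈ ker θ = (s0 - r0)`. -/
def StF2 : Prop := StFTH → StF1 → StPRI → ∀ y : P0, (s0 - r0) * y ∈ Ideal.span {E10, E20} →
  y ∈ Ideal.span {E10, E20}

/-- **F3** (90 lines).  PROOF.  `swp` twice with `x = s0`.  (1) `I = (s0 - r0)`, `f = E10`.  `s0` is regular mod `(s0 - r0)`:
`(s0 - r0)` is the kernel of the evaluation `r0 ↦ s0` (other variables fixed) `P0 → P0`, a prime ideal which does not contain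
`s0` (or `FTH`).  `E10` is regular mod `(s0 - r0) ⊔ (s0) = (r0, s0)`: this is the kernel of the evaluation `r0, s0 ↦ 0`, `P0 → P0`,
so prime, and `E10 ↦ ν ≠ 0` (evaluate at `b = 1`, others `0`: `2`).  (2) `I = (s0 - r0) ⊔ (E10)`, `f = E20`:
`I ⊔ (s0) = (ν, r0, s0)` (`E10 = ν - r0 n0 - s0 m0`), use `D3`. -/
def StF3 : Prop := StD3 → ∀ y : P0, s0 * y ∈ Ideal.span {E10, E20, s0 - r0} →
  y ∈ Ideal.span {E10, E20, s0 - r0}

/-- **F4** (80 lines).  PROOF.  As `F3` with `r0` in place of `s0 - r0`: (1) `I = (r0)`, `x = s0`, `f = E10`: `s0` is regular mod the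
prime ideal `(r0)`; `(r0) ⊔ (s0)` is prime (kernel of the evaluation `r0, s0 ↦ 0`) and does not contain `E10`.
(2) `I = (r0) ⊔ (E10)`, `f = E20`: `I ⊔ (s0) = (ν, r0, s0)`, `D3`. -/
def StF4 : Prop := StD3 → ∀ y : P0, s0 * y ∈ Ideal.span {E10, E20, r0} →
  y ∈ Ideal.span {E10, E20, r0}

/-! ### PAR: the parity function -/

/-- **QUO** (functions on a quotient ring; 70 lines).  PROOF.  Let `g : A → A'` be a section of `φ`.  For an `A'`-module `M`
killed by `ker φ` let `A` act by `a • m := g a • m`; this is a module structure (differences `g (a + b) - g a - g b`,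
`g (a b) - g a g b`, `g 1 - 1`, `g 0`, `g (φ a') - a'` are in `ker φ`, which kills `M`; or
`Function.Surjective.moduleLeft φ hφ`).  Put `ψ.f M := χ.f M` with this structure if `kil (ker φ) M`, and `0` otherwise.
Exactness: the maps are `A`-linear for these structures (submodule and quotient of `N` are killed by `ker φ`: `gd_kil`),
`N` is finite over `A` (the same generators: `a' • n = φ a' • n`).  Last clause: an `A`-module structure with
`φ a' • m = a' • m` is equal to the constructed one (`Module.ext'`), and `M` is killed by `ker φ`. -/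
def StQUO : Prop := ∀ (A' A : Type) [CommRing A'] [CommRing A] (φ : A' →+* A),
  Function.Surjective φ → ∀ (Λ : Type) [AddCommGroup Λ] (χ : AF A (kil (⊥ : Ideal A)) Λ),
  ∃ ψ : AF A' (kil (RingHom.ker φ)) Λ, ∀ (M : Type) [AddCommGroup M] [Module A M] [Module A' M],
    (∀ (a : A') (m : M), φ a • m = a • m) → ψ.f M = χ.f M

/-- **RNK** (60 lines).  PROOF.  `d = natDegree n`, `c` the leading coefficient.  `j : (Fin d → k) → k[X] / (n)`,
`v ↦ ∑ v_i X^i` is `k`-linear and injective (a nonzero multiple of `n` has degree `≥ d`, `k` is a domain).  Every element of the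
cokernel is killed by a power of `c`: `c^j X^j` is congruent modulo `n` to a polynomial of degree `< d` (induction:
`c X^(j+1) = X (c X^j)`; more simply: for every `f` there is `m` with `c^m f = u n + r`, `deg r < d`, induction on the degree of
`f`: `c f - lc(f) X^(deg f - d) n` has smaller degree).  So the cokernel has rank `0` (`rank_eq_zero_iff`) and
`rank_quotient_add_rank_of_isDomain` for the range of `j` gives `rank = d`. -/
def StRNK : Prop := ∀ (k : Type) [CommRing k] [IsDomain k] (n : k[X]), n ≠ 0 →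
  Module.rank k (k[X] ⧸ Ideal.span {n}) = (n.natDegree : Cardinal)

/-- `k[X][α] / (α² - c)` -/
abbrev Qr (k : Type) [CommRing k] (c : k[X]) : Type := AdjoinRoot (X ^ 2 - C c : Polynomial (Polynomial k))

/-- **QEV** (150 lines).  PROOF.  `R = k[X]`, `A = R[α]`, `α² = c`, is free over `R` with basis `1, α`
(`AdjoinRoot.powerBasis'`, monic): `u = p + q α` uniquely.  `τ : A → A`, `α ↦ - α` (`AdjoinRoot.lift`), an involution over `R`,
`u τ(u) = N(u) := p² - c q²` (in `R`), `N(u) ≠ 0` for `u ≠ 0`, so `A` is a domain (`u v = 0` gives `N(u) N(v) = 0`), torsion free over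
`k`.  For `n ∈ R`, `n ≠ 0`: `A / n ≅ (R/n)²` over `k`, so `rank_k (A/n) = 2 deg n` (`RNK`).  For `u, v ≠ 0`:
`0 → A/v -u-> A/(u v) → A/u → 0` is exact over `k`, so the ranks add (`rank_quotient_add_rank_of_isDomain`); `A/u ≅ A/τ(u)` by
`τ`.  So `2 rank (A/u) = rank (A / N(u)) = 2 deg N(u)`, `rank (A/u) = deg N(u)` is finite and even. -/
def StQEV : Prop := StRNK → ∀ (k : Type) [CommRing k] [IsDomain k] (c : k[X]),
  (∀ p q : k[X], (p ≠ 0 ∨ q ≠ 0) → p ^ 2 - c * q ^ 2 ≠ 0 ∧ Even (p ^ 2 - c * q ^ 2).natDegree) →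
  IsDomain (Qr k c) ∧ Module.IsTorsionFree k (Qr k c) ∧
  ∀ u : Qr k c, u ≠ 0 → Module.rank k (Qr k c ⧸ Ideal.span {u}) < Cardinal.aleph0 ∧
    Even (Module.finrank k (Qr k c ⧸ Ideal.span {u}))

/-- `c = 2 b + t b²` in `ℂ[t][b]` (`b = X`, `t = C X`) -/
def cpar : ℂ[X][X] := C 2 * X + C X * X ^ 2

/-- `ℂ[t][b][a] / (a² - c)` -/
abbrev Apar : Type := Qr ℂ[X] cpar

/-- **NPR** (60 lines).  PROOF.  If `q = 0` the element is `p²`, if `p = 0` it is `- c q²` of degree `2 + 2 deg q` (`c` has degree `2`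
and leading coefficient `t = X`).  Both nonzero: `deg p² = 2 deg p`, `deg (c q²) = 2 + 2 deg q`.  If they are different the degree
of the difference is the larger one, even.  If they are equal, `= d`, the coefficient of degree `d` is `l² - t m²` with
`l, m ≠ 0` in `ℂ[t]` the leading coefficients; `deg l²` is even and `deg (t m²)` is odd, so it is not `0`: the degree is `d`. -/
def StNPR : Prop := ∀ p q : ℂ[X][X], (p ≠ 0 ∨ q ≠ 0) →
  p ^ 2 - cpar * q ^ 2 ≠ 0 ∧ Even (p ^ 2 - cpar * q ^ 2).natDegree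

/-- **MD3** (80 lines).  PROOF.  `φ = (MvPolynomial.aeval ![α, of X, of (C X)]).toRingHom`, `α` the root (`Apar` is a `ℂ`-algebra).
Surjective: the range is a subring which contains `α` and the image of `ℂ[t][b]`.  Kernel: `φ nu3 = 2 b + t b² - α² = 0`.
Conversely every `f ∈ P3` is congruent modulo `nu3` to `g(b, t) + h(b, t) a` (`MvPolynomial.induction_on`; `a² ≡ 2 b + t b²`),
`g, h` in the image of the section `ℂ[t][b] → P3`, and `φ` of it is `of g + of h α`, which is `0` only if `g = h = 0`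
(`AdjoinRoot.powerBasis'`, or: a polynomial of degree `< 2` is not divisible by the monic `X² - c`). -/
def StMD3 : Prop := ∃ φ : P3 →+* Apar, Function.Surjective φ ∧ RingHom.ker φ = Ideal.span {nu3} ∧
  φ (MvPolynomial.X 0) = AdjoinRoot.root (X ^ 2 - C cpar : ℂ[X][X][X]) ∧
  φ (MvPolynomial.X 1) = AdjoinRoot.of (X ^ 2 - C cpar : ℂ[X][X][X]) X ∧
  φ (MvPolynomial.X 2) = AdjoinRoot.of (X ^ 2 - C cpar : ℂ[X][X][X]) (C X) ∧
  ∀ z : ℂ, φ (MvPolynomial.C z) = AdjoinRoot.of (X ^ 2 - C cpar : ℂ[X][X][X]) (C (C z))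

/-- **PAR** (90 lines).  PROOF.  `PR0` for `k = ℂ[X]`, `A = Apar` (`QEV` and `NPR`) gives `χ`; `QUO` for `φ` of `MD3` gives
`par` (`ker φ = span {nu3}`).  `par (P3 / nu3) = χ (P3 / nu3)` with the `A`-structure of the quotient (`P3 / ker φ ≃ A`,
`RingHom.quotientKerEquivOfSurjective`) `= χ A = 0` (`AF.equiv`).  `N = P3 / (a, b)` is killed by `nu3`; give it the
`A`-structure (for instance `N ≃ A / (φ a, φ b)`, or construct it as in `QUO`), it is finite, killed by `u = α ≠ 0`, and as a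
module over `k = ℂ[t]` it is `≅ ℂ[t]` (`P3 / (a, b) ≅ ℂ[t]`), of rank `1`: `par N = χ N = 1`. -/
def StPAR : Prop := StPR0 → StQUO → StRNK → StQEV → StNPR → StMD3 →
  ∃ par : AF P3 (kil (Ideal.span {nu3})) (ZMod 2), par.f (P3 ⧸ Ideal.span {nu3}) = 0 ∧
    par.f (P3 ⧸ Ideal.span {(MvPolynomial.X 0 : P3), MvPolynomial.X 1}) = 1

end

end Pool.Agent.Helper21.FX
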